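import Pool.Agent.Zk16.M.Stms

/-! The points with small abscissa (`S_SMX`). -/

set_option autoImplicit false

open Finset

namespace Pool.Agent.Zk85.M16

lemma count_y (T : Finset ℤ) (D : ℝ) (hD : 0 ≤ D)
    (h : ∀ y ∈ T, ∀ y' ∈ T, (y : ℝ) - y' ≤ D) : (T.card : ℝ) ≤ D + 1 := by
  rcases T.eq_empty_or_nonempty with rfl | hne
  · simp only [card_empty, Nat.cast_zero]; linarith
  set m := T.min' hne with hm
  have hmT : m ∈ T := T.min'_mem hne
  have hsub : T ⊆ Icc m (m + ⌊D⌋) := by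
    intro y hy
    rw [mem_Icc]
    refine ⟨T.min'_le y hy, ?_⟩
    have h1 := h y hy m hmT
    have h2 : y - m ≤ ⌊D⌋ := by
      rw [Int.le_floor]
      push_cast
      exact h1
    omega
  have h1 := card_le_card hsub
  rw [Int.card_Icc] at h1
  have h2 : (0 : ℤ) ≤ ⌊D⌋ := Int.floor_nonneg.2 hD
  have h3 : (T.card : ℤ) ≤ ⌊D⌋ + 1 := by omega
  have h4 : (T.card : ℝ) ≤ (⌊D⌋ : ℝ) + 1 := by exact_mod_cast h3
  linarith [Int.floor_le D]

lemma count_pairs (S : Finset (ℤ × ℤ)) (X D : ℝ) (hX : 0 ≤ X) (hD : 0 ≤ D)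
    (hx : ∀ e ∈ S, 0 ≤ e.1 ∧ (e.1 : ℝ) ≤ X)
    (hy : ∀ e ∈ S, ∀ e' ∈ S, e.1 = e'.1 → (e.2 : ℝ) - e'.2 ≤ D) :
    (S.card : ℝ) ≤ (X + 1) * (D + 1) := by
  classical
  have h1 : S.card = ∑ a ∈ S.image Prod.fst, (S.filter (fun e => e.1 = a)).card :=
    card_eq_sum_card_image Prod.fst S
  have h2 : ((S.image Prod.fst).card : ℝ) ≤ X + 1 := by
    apply count_y _ _ hX
    intro y hy y' hy'
    rw [mem_image] at hy hy'
    obtain ⟨e, he, rfl⟩ := hy
    obtain ⟨e', he', rfl⟩ := hy'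
    have a1 := (hx e he).2
    have a2 : (0 : ℝ) ≤ e'.1 := by exact_mod_cast (hx e' he').1
    linarith
  rw [h1]
  push_cast
  calc ∑ a ∈ S.image Prod.fst, ((S.filter (fun e => e.1 = a)).card : ℝ)
      ≤ ∑ _a ∈ S.image Prod.fst, (D + 1) := by
        refine sum_le_sum fun a _ => ?_
        have h3 : (S.filter (fun e => e.1 = a)).card =
            ((S.filter (fun e => e.1 = a)).image Prod.snd).card := by
          rw [card_image_of_injOn]
          intro e he e' he' h
          rw [mem_coe, mem_filter] at he he'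
          exact Prod.ext (he.2.trans he'.2.symm) h
        rw [h3]
        apply count_y _ _ hD
        intro y hy1 y' hy1'
        rw [mem_image] at hy1 hy1'
        obtain ⟨e, he, rfl⟩ := hy1
        obtain ⟨e', he', rfl⟩ := hy1'
        rw [mem_filter] at he he'
        exact hy e he.1 e' he'.1 (he.2.trans he'.2.symm)
    _ = ((S.image Prod.fst).card : ℝ) * (D + 1) := by rw [sum_const, nsmul_eq_mul]
    _ ≤ (X + 1) * (D + 1) := mul_le_mul_of_nonneg_right h2 (by linarith)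

/-- the points with `y ≥ 0` -/
lemma upper (Y : ℝ) (S : Finset (ℤ × ℤ)) (hY : 1 ≤ Y)
    (h : ∀ e ∈ S, 0 ≤ e.2 ∧ |((e.1 ^ 3 - e.2 ^ 2 : ℤ) : ℝ)| ≤ Y ∧
      |(e.1 : ℝ)| ≤ 200 * Y ^ ((13 : ℝ) / 25)) :
    (S.card : ℝ) ≤ 620 * Y ^ ((19 : ℝ) / 20) := by
  classical
  have hY0 : 0 < Y := by linarith
  have hP1 : ∀ t : ℝ, 0 ≤ t → 1 ≤ Y ^ t := fun t ht => Real.one_le_rpow hY ht
  have hPm : ∀ s t : ℝ, s ≤ t → Y ^ s ≤ Y ^ t := fun s t hst =>
    Real.rpow_le_rpow_of_exponent_le hY hst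
  have hPa : ∀ s t : ℝ, Y ^ s * Y ^ t = Y ^ (s + t) := fun s t => (Real.rpow_add hY0 s t).symm
  have hPp : ∀ (t : ℝ) (n : ℕ), (Y ^ t) ^ n = Y ^ (t * n) := fun t n => by
    rw [← Real.rpow_natCast, ← Real.rpow_mul hY0.le]
  have hP0 : ∀ t : ℝ, 0 < Y ^ t := fun t => Real.rpow_pos_of_pos hY0 t
  -- the products
  have prod : ∀ (a b s t : ℝ), 0 ≤ a → 0 ≤ b → 0 ≤ s → 0 ≤ t → s + t ≤ 19 / 20 →
      (a * Y ^ s + 1) * (b * Y ^ t + 1) ≤ ((a + 1) * (b + 1)) * Y ^ ((19 : ℝ) / 20) := by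
    intro a b s t ha hb hs ht hst
    have h1 : a * Y ^ s + 1 ≤ (a + 1) * Y ^ s := by linarith [hP1 s hs]
    have h2 : b * Y ^ t + 1 ≤ (b + 1) * Y ^ t := by linarith [hP1 t ht]
    calc (a * Y ^ s + 1) * (b * Y ^ t + 1) ≤ ((a + 1) * Y ^ s) * ((b + 1) * Y ^ t) :=
          mul_le_mul h1 h2 (by have := hP0 t; positivity) (by have := hP0 s; positivity)
      _ = ((a + 1) * (b + 1)) * Y ^ (s + t) := by rw [← hPa]; ring
      _ ≤ _ := mul_le_mul_of_nonneg_left (hPm _ _ hst) (by positivity)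
  have hcast : ∀ e ∈ S, |(e.1 : ℝ) ^ 3 - (e.2 : ℝ) ^ 2| ≤ Y := by
    intro e he
    have := (h e he).2.1
    push_cast at this
    exact this
  have hy0 : ∀ e ∈ S, (0 : ℝ) ≤ e.2 := fun e he => by exact_mod_cast (h e he).1
  -- the four parts
  set S1 := S.filter (fun e => e.1 < 0) with hS1
  set S2 := S.filter (fun e => 0 ≤ e.1 ∧ (e.1 : ℝ) ^ 3 < 2 * Y) with hS2
  set S3 := S.filter (fun e => 0 ≤ e.1 ∧ 2 * Y ≤ (e.1 : ℝ) ^ 3 ∧ (e.1 : ℝ) ≤ Y ^ ((21 : ℝ) / 50)) with hS3
  set S4 := S.filter (fun e => 0 ≤ e.1 ∧ 2 * Y ≤ (e.1 : ℝ) ^ 3 ∧ Y ^ ((21 : ℝ) / 50) < (e.1 : ℝ)) with hS4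
  have hcov : S ⊆ S1 ∪ (S2 ∪ (S3 ∪ S4)) := by
    intro e he
    simp only [hS1, hS2, hS3, hS4, mem_union, mem_filter]
    rcases lt_or_ge e.1 0 with h1 | h1
    · exact Or.inl ⟨he, h1⟩
    · right
      rcases lt_or_ge ((e.1 : ℝ) ^ 3) (2 * Y) with h2 | h2
      · exact Or.inl ⟨he, h1, h2⟩
      · right
        rcases le_or_gt (e.1 : ℝ) (Y ^ ((21 : ℝ) / 50)) with h3 | h3
        · exact Or.inl ⟨he, h1, h2, h3⟩
        · exact Or.inr ⟨he, h1, h2, h3⟩
  have hcard : (S.card : ℝ) ≤ S1.card + (S2.card + (S3.card + S4.card)) := by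
    have h1 := card_le_card hcov
    have h2 := card_union_le S1 (S2 ∪ (S3 ∪ S4))
    have h3 := card_union_le S2 (S3 ∪ S4)
    have h4 := card_union_le S3 S4
    have h5 : S.card ≤ S1.card + (S2.card + (S3.card + S4.card)) := by omega
    exact_mod_cast h5
  -- part 1
  have c1 : (S1.card : ℝ) ≤ 4 * Y ^ ((19 : ℝ) / 20) := by
    have hinj : S1.card = (S1.image (fun e : ℤ × ℤ => (-e.1, e.2))).card := by
      rw [card_image_of_injective]
      intro e e' he
      simp only [Prod.mk.injEq, neg_inj] at he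
      exact Prod.ext he.1 he.2
    rw [hinj]
    have hb : ∀ e ∈ S1, -(e.1 : ℝ) ≤ Y ^ ((1 : ℝ) / 3) ∧ (e.2 : ℝ) ≤ Y ^ ((1 : ℝ) / 2) := by
      intro e he
      rw [hS1, mem_filter] at he
      have h1 := abs_le.1 (hcast e he.1)
      have h2 : (e.1 : ℝ) < 0 := by exact_mod_cast he.2
      have h3 : 0 ≤ (-(e.1 : ℝ)) ^ 3 := by
        have : 0 ≤ -(e.1 : ℝ) := by linarith
        positivity
      have h4 : (-(e.1 : ℝ)) ^ 3 = -(e.1 : ℝ) ^ 3 := by ring
      constructor
      · refine le_of_pow_le_pow_left₀ (n := 3) (by norm_num) (hP0 _).le ?_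
        rw [hPp, h4]
        norm_num
        nlinarith [sq_nonneg (e.2 : ℝ), h1.1]
      · refine le_of_pow_le_pow_left₀ (n := 2) (by norm_num) (hP0 _).le ?_
        rw [hPp]
        norm_num
        linarith [h1.1]
    have h1 := count_pairs (S1.image (fun e : ℤ × ℤ => (-e.1, e.2))) (Y ^ ((1 : ℝ) / 3))
      (Y ^ ((1 : ℝ) / 2)) (hP0 _).le (hP0 _).le (by
        intro e he
        rw [mem_image] at he
        obtain ⟨e', he', rfl⟩ := he
        refine ⟨?_, ?_⟩
        · have := (mem_filter.1 he').2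
          simp only
          omega
        · have := (hb e' he').1
          push_cast
          exact this) (by
        intro e he e' he' _
        rw [mem_image] at he he'
        obtain ⟨f, hf, rfl⟩ := he
        obtain ⟨f', hf', rfl⟩ := he'
        have a1 := (hb f hf).2
        have a2 := hy0 f' (mem_filter.1 hf').1
        simp only
        linarith)
    refine h1.trans ?_
    have := prod 1 1 (1 / 3) (1 / 2) (by norm_num) (by norm_num) (by norm_num) (by norm_num)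
      (by norm_num)
    rw [one_mul, one_mul] at this
    linarith
  -- part 2
  have c2 : (S2.card : ℝ) ≤ 9 * Y ^ ((19 : ℝ) / 20) := by
    have hb : ∀ e ∈ S2, (e.1 : ℝ) ≤ 2 * Y ^ ((1 : ℝ) / 3) ∧ (e.2 : ℝ) ≤ 2 * Y ^ ((1 : ℝ) / 2) := by
      intro e he
      rw [hS2, mem_filter] at he
      have h1 := abs_le.1 (hcast e he.1)
      constructor
      · refine le_of_pow_le_pow_left₀ (n := 3) (by norm_num) (by have := hP0 (1 / 3); positivity) ?_
        rw [mul_pow, hPp]
        norm_num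
        linarith [he.2.2]
      · refine le_of_pow_le_pow_left₀ (n := 2) (by norm_num) (by have := hP0 (1 / 2); positivity) ?_
        rw [mul_pow, hPp]
        norm_num
        linarith [h1.1, he.2.2]
    have h1 := count_pairs S2 (2 * Y ^ ((1 : ℝ) / 3)) (2 * Y ^ ((1 : ℝ) / 2))
      (by have := hP0 (1 / 3); positivity) (by have := hP0 (1 / 2); positivity)
      (fun e he => ⟨(mem_filter.1 he).2.1, (hb e he).1⟩) (by
        intro e he e' he' _
        have a1 := (hb e he).2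
        have a2 := hy0 e' (mem_filter.1 he').1
        linarith)
    refine h1.trans ?_
    have := prod 2 2 (1 / 3) (1 / 2) (by norm_num) (by norm_num) (by norm_num) (by norm_num)
      (by norm_num)
    linarith
  -- differences of two `y`
  have hdiff : ∀ e ∈ S, ∀ e' ∈ S, e.1 = e'.1 →
      ((e.2 : ℝ) - e'.2) * (e.2 + e'.2) ≤ 2 * Y := by
    intro e he e' he' hee
    have h1 := abs_le.1 (hcast e he)
    have h2 := abs_le.1 (hcast e' he')
    rw [hee] at h1
    nlinarith [h1.1, h2.2]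
  -- part 3
  have c3 : (S3.card : ℝ) ≤ 4 * Y ^ ((19 : ℝ) / 20) := by
    have hb : ∀ e ∈ S3, Y ^ ((1 : ℝ) / 2) ≤ (e.2 : ℝ) := by
      intro e he
      rw [hS3, mem_filter] at he
      have h1 := abs_le.1 (hcast e he.1)
      refine le_of_pow_le_pow_left₀ (n := 2) (by norm_num) (hy0 e he.1) ?_
      rw [hPp]
      norm_num
      linarith [h1.2, he.2.2.1]
    have h1 := count_pairs S3 (Y ^ ((21 : ℝ) / 50)) (Y ^ ((1 : ℝ) / 2)) (hP0 _).le (hP0 _).le
      (fun e he => ⟨(mem_filter.1 he).2.1, (mem_filter.1 he).2.2.2⟩) (by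
        intro e he e' he' hee
        have a1 := hb e he
        have a2 := hb e' he'
        have a3 := hdiff e (mem_filter.1 he).1 e' (mem_filter.1 he').1 hee
        have a4 : Y ^ ((1 : ℝ) / 2) * Y ^ ((1 : ℝ) / 2) = Y := by
          rw [hPa]; norm_num
        by_contra hcon
        push Not at hcon
        have a5 := hP0 (1 / 2)
        nlinarith [mul_lt_mul_of_pos_right hcon (show (0 : ℝ) < e.2 + e'.2 by linarith),
          mul_le_mul_of_nonneg_left (add_le_add a1 a2) a5.le])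
    refine h1.trans ?_
    have := prod 1 1 (21 / 50) (1 / 2) (by norm_num) (by norm_num) (by norm_num) (by norm_num)
      (by norm_num)
    rw [one_mul, one_mul] at this
    linarith
  -- part 4
  have c4 : (S4.card : ℝ) ≤ 603 * Y ^ ((19 : ℝ) / 20) := by
    have hb : ∀ e ∈ S4, Y ^ ((63 : ℝ) / 100) ≤ 2 * (e.2 : ℝ) := by
      intro e he
      rw [hS4, mem_filter] at he
      have h1 := abs_le.1 (hcast e he.1)
      have h2 : (Y ^ ((21 : ℝ) / 50)) ^ 3 ≤ (e.1 : ℝ) ^ 3 :=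
        pow_le_pow_left₀ (hP0 _).le he.2.2.2.le 3
      rw [hPp] at h2
      refine le_of_pow_le_pow_left₀ (n := 2) (by norm_num) (by linarith [hy0 e he.1]) ?_
      rw [hPp, mul_pow]
      have e1 : (21 : ℝ) / 50 * ((3 : ℕ) : ℝ) = 63 / 50 := by norm_num
      have e2 : (63 : ℝ) / 100 * ((2 : ℕ) : ℝ) = 63 / 50 := by norm_num
      rw [e1] at h2
      rw [e2]
      have h3 := hP0 (63 / 50)
      nlinarith [h1.2, he.2.2.1]
    have h1 := count_pairs S4 (200 * Y ^ ((13 : ℝ) / 25)) (2 * Y ^ ((37 : ℝ) / 100))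
      (by have := hP0 (13 / 25); positivity) (by have := hP0 (37 / 100); positivity)
      (fun e he => ⟨(mem_filter.1 he).2.1, (le_abs_self _).trans (h e (mem_filter.1 he).1).2.2⟩) (by
        intro e he e' he' hee
        have a1 := hb e he
        have a2 := hb e' he'
        have a3 := hdiff e (mem_filter.1 he).1 e' (mem_filter.1 he').1 hee
        have a4 : Y ^ ((37 : ℝ) / 100) * Y ^ ((63 : ℝ) / 100) = Y := by
          rw [hPa]; norm_num
        by_contra hcon
        push Not at hcon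
        have a5 := hP0 (37 / 100)
        have a6 := hP0 (63 / 100)
        nlinarith [mul_lt_mul_of_pos_right hcon (show (0 : ℝ) < e.2 + e'.2 by linarith),
          mul_le_mul_of_nonneg_left (add_le_add a1 a2) a5.le])
    refine h1.trans ?_
    have := prod 200 2 (13 / 25) (37 / 100) (by norm_num) (by norm_num) (by norm_num) (by norm_num)
      (by norm_num)
    linarith
  linarith

theorem t_SMX : Pool.Agent.Zk16.M.S_SMX := by
  classical
  refine ⟨1240, by norm_num, fun Y S hY h => ?_⟩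
  set A := S.filter (fun e => 0 ≤ e.2) with hA
  set B := (S.filter (fun e => ¬ 0 ≤ e.2)).image (fun e : ℤ × ℤ => (e.1, -e.2)) with hB
  have h1 : (A.card : ℝ) ≤ 620 * Y ^ ((19 : ℝ) / 20) := by
    apply upper Y A hY
    intro e he
    rw [hA, mem_filter] at he
    exact ⟨he.2, h e he.1⟩
  have h2 : (B.card : ℝ) ≤ 620 * Y ^ ((19 : ℝ) / 20) := by
    apply upper Y B hY
    intro e he
    rw [hB, mem_image] at he
    obtain ⟨f, hf, rfl⟩ := he
    rw [mem_filter] at hf
    refine ⟨by simp only; omega, ?_, (h f hf.1).2⟩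
    have h3 := (h f hf.1).1
    simp only [neg_sq]
    exact h3
  have h3 : (S.filter (fun e => ¬ 0 ≤ e.2)).card = B.card := by
    rw [hB, card_image_of_injective]
    intro e e' he
    simp only [Prod.mk.injEq, neg_inj] at he
    exact Prod.ext he.1 he.2
  have h4 := card_filter_add_card_filter_not (s := S) (fun e : ℤ × ℤ => 0 ≤ e.2)
  have h5 : (S.card : ℝ) = A.card + B.card := by
    rw [← h3]
    exact_mod_cast h4.symm
  rw [h5]
  linarith

end Pool.Agent.Zk85.M16
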